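import Mathlib

set_option autoImplicit false

/-!
U593/FM (helper593, MP_e016b3_lc, MP_f326ae_lc): de Morgan formulas (definition).
-/

namespace Pool.Agent.U593.FM

/-- A de Morgan formula: binary AND and OR gates, whose leaves are elements of `J`. -/
inductive Formula (J : Type) : Type
  | leaf (j : J) : Formula J
  | and (F G : Formula J) : Formula J
  | or (F G : Formula J) : Formula J

namespace Formula

variable {J : Type}

/-- The value of the formula if the leaf `j` has the value `v j`. -/
def eval (v : J → Bool) : Formula J → Bool
  | leaf j => v j
  | and F G => F.eval v && G.eval v
  | or F G => F.eval v || G.eval v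

/-- The size of the formula: the number of leaves (with multiplicity). -/
def size : Formula J → ℕ
  | leaf _ => 1
  | and F G => F.size + G.size
  | or F G => F.size + G.size

end Formula

/-- `g` has at every input `y` a certificate with at most `d` coordinates: a set `S` of at most `d`
coordinates such that `g` has the same value at all inputs which agree with `y` on `S`. For
instance this holds if `g` is computed by an adaptive procedure which reads at most `d`
coordinates. -/
def Local {I Y : Type} (d : ℕ) (g : (I → Y) → Bool) : Prop :=
  ∀ y : I → Y, ∃ S : Finset I, S.card ≤ d ∧ ∀ y' : I → Y, (∀ i ∈ S, y' i = y i) → g y' = g y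

end Pool.Agent.U593.FM
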