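import Pool.Agent.U593.FM.LPair
import Pool.Agent.U121.SI.LMain

set_option autoImplicit false
set_option linter.unusedSectionVars false
set_option linter.unusedVariables false

/-!
U593/FM (helper593, MP_f326ae_lc): the total size of the formulas which compute the joint memory of
a structure for SetIntersection (listing). The proof is a variant of
`Pool.Agent.U121.SI.Lst.list_main` (helper121).
-/

namespace Pool.Agent.U593.FM.Lst

open Pool.Agent.W959 Pool.Agent.W959.Ent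

open Pool.Agent.U121.SI (FF Th ap sel e1 zz sum_update)

open Pool.Agent.U121.SI.Lst (stv sb sum_sb2 ap_comp)

open scoped Classical

/-- **SetIntersection (listing) with a joint memory computed by formulas.** -/
theorem list_main {N w : ℕ} {C T : ℝ} (hw : 1 ≤ w) (hC : 1 ≤ C) (hT : 1 ≤ T)
    (hN : 10 ^ 10 * (C * w) ^ 2 * T ≤ N) :
    ∃ k : ℕ, ∀ (d s : ℕ), 1 ≤ d → ∀ (Ω : Type) [Fintype Ω]
      (p : Ω → ℝ), (∀ ω, 0 ≤ p ω) → ∑ ω, p ω = 1 → ∀ D : Ω → DS k d w s,
      Solves N C T p D → (N : ℝ) ^ 2 ≤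
        10 ^ 21 * C ^ 5 * w ^ 5 * T * ((d : ℝ) ^ 2 * ∑ ω, p ω * ((D ω).memory.size : ℝ)) := by
  have hw' : (1 : ℝ) ≤ w := by exact_mod_cast hw
  have hCb : 1 ≤ C * w := by nlinarith
  obtain ⟨x, hx⟩ : ∃ x : ℝ, x = C * w := ⟨_, rfl⟩
  have hx1 : 1 ≤ x := by rw [hx]; exact hCb
  obtain ⟨m, hm1, hm2⟩ : ∃ m : ℕ, 1500 * x ≤ m ∧ (m : ℝ) ≤ 1501 * x := by
    refine ⟨⌈1500 * x⌉₊, Nat.le_ceil _, ?_⟩
    have := Nat.ceil_lt_add_one (show 0 ≤ 1500 * x by linarith)
    linarith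
  obtain ⟨u, hu1, hu2, hu3⟩ : ∃ u : ℕ, 300 ≤ u ∧ 300 * T ≤ u ∧ (u : ℝ) ≤ 600 * T := by
    refine ⟨300 * ⌈T⌉₊, ?_, ?_, ?_⟩
    · have : 1 ≤ ⌈T⌉₊ := Nat.one_le_ceil_iff.2 (by linarith)
      omega
    · push_cast
      have := Nat.le_ceil T
      linarith
    · push_cast
      have := Nat.ceil_lt_add_one (show 0 ≤ T by linarith)
      linarith
  have hu' : (300 : ℝ) ≤ u := by exact_mod_cast hu1
  have hm' : (1500 : ℝ) ≤ m := by linarith
  have hm0 : 1 ≤ m := by
    have : (1 : ℝ) ≤ m := by linarith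
    exact_mod_cast this
  obtain ⟨n, hn⟩ : ∃ n, n = m ^ 2 * u := ⟨_, rfl⟩
  have hn' : (n : ℝ) = (m : ℝ) ^ 2 * u := by rw [hn]; push_cast; ring
  have hn0 : 0 < (n : ℝ) := by rw [hn']; positivity
  have hm2' : (m : ℝ) ^ 2 ≤ (1501 * x) ^ 2 := pow_le_pow_left₀ (by linarith) hm2 2
  have h2n : 2 * (n : ℝ) ≤ N := by
    rw [← hx] at hN
    refine le_trans ?_ hN
    rw [hn']
    calc 2 * ((m : ℝ) ^ 2 * u) ≤ 2 * ((1501 * x) ^ 2 * (600 * T)) := by gcongr
      _ ≤ 10 ^ 10 * x ^ 2 * T := by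
        have : 0 ≤ x ^ 2 * T := by positivity
        nlinarith
  have h2n' : 2 * n ≤ N := by exact_mod_cast h2n
  have hnpos : 0 < n := by exact_mod_cast hn0
  obtain ⟨k, hk⟩ : ∃ k, k = N / (2 * n) := ⟨_, rfl⟩
  have hkN : 2 * (k * n) ≤ N := by
    have := Nat.div_mul_le_self N (2 * n)
    rw [← hk] at this
    calc 2 * (k * n) = k * (2 * n) := by ring
      _ ≤ N := this
  have hk0 : 0 < k := by
    rw [hk]
    exact Nat.div_pos h2n' (by omega)
  have hn4 : N ≤ 4 * n * k := by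
    have h1 : N < 2 * n * (k + 1) := by
      rw [hk]
      exact Nat.lt_mul_div_succ N (by omega)
    have h2 : 2 * n * (k + 1) ≤ 4 * n * k := by
      calc 2 * n * (k + 1) ≤ 2 * n * (k + k) := Nat.mul_le_mul_left _ (by omega)
        _ = 4 * n * k := by ring
    omega
  refine ⟨k, fun d s hd Ω _ p hp hp1 D hsol => ?_⟩
  obtain ⟨Z, hZ⟩ : ∃ Z : ℝ, Z = Fintype.card (Fin k ⊕ Fin k → (Fin n → Fin m)) := ⟨_, rfl⟩
  have : Nonempty (Fin m) := ⟨⟨0, by omega⟩⟩
  have hZ0 : 0 < Z := by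
    rw [hZ]
    exact_mod_cast Fintype.card_pos
  have hX : (Fintype.card (Fin n → Fin m) : ℝ) = (m : ℝ) ^ n := by
    rw [Fintype.card_fun, Fintype.card_fin, Fintype.card_fin]; push_cast; rfl
  have hXpos : (0 : ℝ) < (m : ℝ) ^ n := by positivity
  obtain ⟨S, hS⟩ : ∃ S : ℝ, S = (d : ℝ) ^ 2 * ∑ ω, p ω * ((D ω).memory.size : ℝ) := ⟨_, rfl⟩
  have hS0 : 0 ≤ S := by
    rw [hS]
    exact mul_nonneg (by positivity)
      (Finset.sum_nonneg fun ω _ => mul_nonneg (hp ω) (Nat.cast_nonneg _))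
  -- the mean number of cells which are not approximated
  obtain ⟨g, hg⟩ : ∃ g : Fin k × Fin k → (Fin k ⊕ Fin k → (Fin n → Fin m)) →
      (Fin k ⊕ Fin k → (Fin n → Fin m)) → ℝ, g = fun pr ζ' ζ =>
      ∑ ω, p ω * ((own (D ω) (fun i => sb (ζ i)) (fun i => sb (ζ' i)) pr).card : ℝ) := ⟨_, rfl⟩
  have hlow : ∀ pr, (u : ℝ) / (4000 * (w * C)) * Z ^ 2 ≤ ∑ ζ', ∑ ζ, g pr ζ' ζ := by
    intro pr
    have h2 : ∀ ζ', ((m : ℝ) ^ n) ^ 2 * ∑ ζ, g pr ζ' ζ = ∑ ζ, ∑ a, ∑ b,
        g pr ζ' (Function.update (Function.update ζ (Sum.inl pr.1) a) (Sum.inr pr.2) b) := by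
      intro ζ'
      have e1 := sum_update (Sum.inr pr.2) (g pr ζ')
      have e2 := sum_update (Sum.inl pr.1)
        (fun ζ => ∑ b, g pr ζ' (Function.update ζ (Sum.inr pr.2) b))
      rw [e2, e1, hX]
      ring
    have h3 : ∀ ζ' ζ, (u : ℝ) / (4000 * (w * C)) * ((m : ℝ) ^ n) ^ 2 ≤ ∑ a, ∑ b,
        g pr ζ' (Function.update (Function.update ζ (Sum.inl pr.1) a) (Sum.inr pr.2) b) := by
      intro ζ' ζ
      have e0 := lpair_lower (N := N) hC hw (by linarith) (by rw [← hx]; exact hm1) hu1 hu2 hn hkN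
        p hp hp1 D hsol pr (fun i => sb (ζ i)) (fun i => sb (ζ' i))
      have e1 : ∀ a b : Fin n → Fin m,
          (fun i => sb (Function.update (Function.update ζ (Sum.inl pr.1) a) (Sum.inr pr.2) b i)) =
          Function.update (Function.update (fun i => sb (ζ i)) (Sum.inl pr.1) (sb a))
            (Sum.inr pr.2) (sb b) := by
        intro a b
        funext i
        by_cases h1 : i = Sum.inr pr.2
        · subst h1; simp
        · by_cases h2 : i = Sum.inl pr.1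
          · subst h2; simp
          · simp [h1, h2]
      have e2 : ∑ a : Fin n → Fin m, ∑ b : Fin n → Fin m,
          g pr ζ' (Function.update (Function.update ζ (Sum.inl pr.1) a) (Sum.inr pr.2) b) =
          ((m : ℝ) ^ n) ^ 2 * ∑ ω, p ω * ex2 (1 / (m : ℝ)) n (fun x y =>
            ((own (D ω) (Function.update (Function.update (fun i => sb (ζ i)) (Sum.inl pr.1) x)
              (Sum.inr pr.2) y) (fun i => sb (ζ' i)) pr).card : ℝ)) := by
        rw [Finset.mul_sum]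
        have e3 : ∀ ω, ((m : ℝ) ^ n) ^ 2 * (p ω * ex2 (1 / (m : ℝ)) n (fun x y =>
            ((own (D ω) (Function.update (Function.update (fun i => sb (ζ i)) (Sum.inl pr.1) x)
              (Sum.inr pr.2) y) (fun i => sb (ζ' i)) pr).card : ℝ))) =
            ∑ a : Fin n → Fin m, ∑ b : Fin n → Fin m, p ω *
            ((own (D ω) (Function.update (Function.update (fun i => sb (ζ i)) (Sum.inl pr.1) (sb a))
              (Sum.inr pr.2) (sb b)) (fun i => sb (ζ' i)) pr).card : ℝ) := by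
          intro ω
          simp_rw [← Finset.mul_sum]
          rw [sum_sb2 hm0 n (fun x y =>
            ((own (D ω) (Function.update (Function.update (fun i => sb (ζ i)) (Sum.inl pr.1) x)
              (Sum.inr pr.2) y) (fun i => sb (ζ' i)) pr).card : ℝ))]
          ring
        have e4 : ∀ f : Ω → (Fin n → Fin m) → (Fin n → Fin m) → ℝ,
            ∑ ω, ∑ a, ∑ b, f ω a b = ∑ a, ∑ b, ∑ ω, f ω a b := by
          intro f
          rw [Finset.sum_comm]
          refine Finset.sum_congr rfl fun a _ => ?_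
          rw [Finset.sum_comm]
        rw [Finset.sum_congr rfl fun ω _ => e3 ω]
        refine Eq.trans ?_ (e4 _).symm
        refine Finset.sum_congr rfl fun a _ => ?_
        refine Finset.sum_congr rfl fun b _ => ?_
        rw [hg]
        show ∑ ω, p ω * ((own (D ω) (fun i => sb (Function.update (Function.update ζ
          (Sum.inl pr.1) a) (Sum.inr pr.2) b i)) (fun i => sb (ζ' i)) pr).card : ℝ) = _
        rw [e1]
      rw [e2, mul_comm]
      exact mul_le_mul_of_nonneg_left e0 (by positivity)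
    have h4 : ((m : ℝ) ^ n) ^ 2 * ((u : ℝ) / (4000 * (w * C)) * Z ^ 2) ≤
        ((m : ℝ) ^ n) ^ 2 * ∑ ζ', ∑ ζ, g pr ζ' ζ := by
      rw [Finset.mul_sum, Finset.sum_congr rfl fun ζ' _ => h2 ζ']
      calc ((m : ℝ) ^ n) ^ 2 * ((u : ℝ) / (4000 * (w * C)) * Z ^ 2)
          = ∑ ζ' : Fin k ⊕ Fin k → (Fin n → Fin m), ∑ ζ : Fin k ⊕ Fin k → (Fin n → Fin m),
              (u : ℝ) / (4000 * (w * C)) * ((m : ℝ) ^ n) ^ 2 := by
            rw [Finset.sum_const, Finset.sum_const, nsmul_eq_mul, nsmul_eq_mul,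
              Finset.card_univ, ← hZ]
            ring
        _ ≤ _ := Finset.sum_le_sum fun ζ' _ => Finset.sum_le_sum fun ζ _ => h3 ζ' ζ
    exact le_of_mul_le_mul_left h4 (by positivity)
  -- the bits of the memory are approximated for most pairs
  have hup : ∀ ω, ∑ pr : Fin k × Fin k, ∑ ζ' : Fin k ⊕ Fin k → (Fin n → Fin m),
      ∑ ζ : Fin k ⊕ Fin k → (Fin n → Fin m),
      ((own (D ω) (fun i => sb (ζ i)) (fun i => sb (ζ' i)) pr).card : ℝ) ≤
      3 * ((d : ℝ) ^ 2 * (D ω).memory.size * Z ^ 2) := by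
    intro ω
    have h1 : ∀ (pr : Fin k × Fin k) (ζ' ζ : Fin k ⊕ Fin k → (Fin n → Fin m)),
        ((own (D ω) (fun i => sb (ζ i)) (fun i => sb (ζ' i)) pr).card : ℝ) ≤
        ∑ c : Fin s, ∑ t : Fin w, (if ap (fun ξ : Fin k ⊕ Fin k → (Fin n → Fin m) =>
          bt (D ω) c t fun i => sb (ξ i)) ζ ζ' pr ≠ bt (D ω) c t (fun i => sb (ζ i))
          then (1 : ℝ) else 0) := by
      intro pr ζ' ζ
      unfold own
      rw [Finset.card_filter]
      push_cast
      refine Finset.sum_le_sum fun c _ => ?_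
      split_ifs with h2
      · obtain ⟨t, ht⟩ := h2
        refine le_trans ?_ (Finset.single_le_sum (f := fun t : Fin w =>
          (if ap (fun ξ : Fin k ⊕ Fin k → (Fin n → Fin m) =>
          bt (D ω) c t fun i => sb (ξ i)) ζ ζ' pr ≠ bt (D ω) c t (fun i => sb (ζ i))
          then (1 : ℝ) else 0)) (fun t _ => by
            show (0 : ℝ) ≤ if _ then (1 : ℝ) else 0
            split_ifs <;> norm_num)
          (Finset.mem_univ t))
        rw [if_pos]
        rw [ap_comp]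
        exact ht
      · exact Finset.sum_nonneg fun t _ => by split_ifs <;> norm_num
    have h2 : ∀ (c : Fin s) (t : Fin w), ∑ pr : Fin k × Fin k,
        ((Finset.univ.filter fun q : (Fin k ⊕ Fin k → (Fin n → Fin m)) ×
          (Fin k ⊕ Fin k → (Fin n → Fin m)) =>
          ap (fun ξ : Fin k ⊕ Fin k → (Fin n → Fin m) => bt (D ω) c t fun i => sb (ξ i))
            q.1 q.2 pr ≠ bt (D ω) c t (fun i => sb (q.1 i))).card : ℝ) ≤
        3 * ((d : ℝ) ^ 2 * ((D ω).memory.formula c t).size * Z ^ 2) := by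
      intro c t
      rw [hZ]
      refine sum_err_formula ((D ω).memory.formula c t) (fun φ z => φ.1 (Sum.elim
          (fun i => stv (sb (z (Sum.inl i)))) (fun j => stv (sb (z (Sum.inr j)))))) hd ?_
          (fun z => rfl)
      rintro ⟨φ, hφ⟩ z
      obtain ⟨S, hS, hS'⟩ := hφ (Sum.elim (fun i => stv (sb (z (Sum.inl i))))
        (fun j => stv (sb (z (Sum.inr j)))))
      refine ⟨S, hS, fun z' hz' => ?_⟩
      apply hS'
      rintro (r | r) hr
      · show stv (sb (z' (Sum.inl r))) = stv (sb (z (Sum.inl r)))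
        rw [hz' _ hr]
      · show stv (sb (z' (Sum.inr r))) = stv (sb (z (Sum.inr r)))
        rw [hz' _ hr]
    calc _ ≤ ∑ pr : Fin k × Fin k, ∑ ζ' : Fin k ⊕ Fin k → (Fin n → Fin m),
          ∑ ζ : Fin k ⊕ Fin k → (Fin n → Fin m), ∑ c : Fin s, ∑ t : Fin w,
          (if ap (fun ξ : Fin k ⊕ Fin k → (Fin n → Fin m) =>
          bt (D ω) c t fun i => sb (ξ i)) ζ ζ' pr ≠ bt (D ω) c t (fun i => sb (ζ i))
          then (1 : ℝ) else 0) :=
          Finset.sum_le_sum fun pr _ => Finset.sum_le_sum fun ζ' _ =>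
            Finset.sum_le_sum fun ζ _ => h1 pr ζ' ζ
      _ = ∑ c : Fin s, ∑ t : Fin w, ∑ pr : Fin k × Fin k,
          ((Finset.univ.filter fun q : (Fin k ⊕ Fin k → (Fin n → Fin m)) ×
          (Fin k ⊕ Fin k → (Fin n → Fin m)) =>
          ap (fun ξ : Fin k ⊕ Fin k → (Fin n → Fin m) => bt (D ω) c t fun i => sb (ξ i))
            q.1 q.2 pr ≠ bt (D ω) c t (fun i => sb (q.1 i))).card : ℝ) := by
          have e1 : ∀ (c : Fin s) (t : Fin w) (pr : Fin k × Fin k),
              ((Finset.univ.filter fun q : (Fin k ⊕ Fin k → (Fin n → Fin m)) ×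
              (Fin k ⊕ Fin k → (Fin n → Fin m)) =>
              ap (fun ξ : Fin k ⊕ Fin k → (Fin n → Fin m) => bt (D ω) c t fun i => sb (ξ i))
                q.1 q.2 pr ≠ bt (D ω) c t (fun i => sb (q.1 i))).card : ℝ) =
              ∑ ζ' : Fin k ⊕ Fin k → (Fin n → Fin m),
              ∑ ζ : Fin k ⊕ Fin k → (Fin n → Fin m),
              (if ap (fun ξ : Fin k ⊕ Fin k → (Fin n → Fin m) =>
              bt (D ω) c t fun i => sb (ξ i)) ζ ζ' pr ≠ bt (D ω) c t (fun i => sb (ζ i))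
              then (1 : ℝ) else 0) := by
            intro c t pr
            rw [Finset.card_filter, Fintype.sum_prod_type, Finset.sum_comm]
            push_cast
            rfl
          rw [Finset.sum_congr rfl fun c _ => Finset.sum_congr rfl fun t _ =>
            Finset.sum_congr rfl fun pr _ => e1 c t pr]
          have e2 : ∀ f : Fin k × Fin k → (Fin k ⊕ Fin k → (Fin n → Fin m)) →
              (Fin k ⊕ Fin k → (Fin n → Fin m)) → Fin s → Fin w → ℝ,
              ∑ pr, ∑ ζ', ∑ ζ, ∑ c, ∑ t, f pr ζ' ζ c t =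
              ∑ c, ∑ t, ∑ pr, ∑ ζ', ∑ ζ, f pr ζ' ζ c t := by
            intro f
            have a1 : ∀ pr, ∑ ζ', ∑ ζ, ∑ c, ∑ t, f pr ζ' ζ c t =
                ∑ c, ∑ t, ∑ ζ', ∑ ζ, f pr ζ' ζ c t := by
              intro pr
              have a2 : ∀ ζ', ∑ ζ, ∑ c, ∑ t, f pr ζ' ζ c t = ∑ c, ∑ t, ∑ ζ, f pr ζ' ζ c t := by
                intro ζ'
                rw [Finset.sum_comm]
                refine Finset.sum_congr rfl fun c _ => ?_
                rw [Finset.sum_comm]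
              rw [Finset.sum_congr rfl fun ζ' _ => a2 ζ', Finset.sum_comm]
              refine Finset.sum_congr rfl fun c _ => ?_
              rw [Finset.sum_comm]
            rw [Finset.sum_congr rfl fun pr _ => a1 pr, Finset.sum_comm]
            refine Finset.sum_congr rfl fun c _ => ?_
            rw [Finset.sum_comm]
          exact e2 _
      _ ≤ ∑ c : Fin s, ∑ t : Fin w, 3 * ((d : ℝ) ^ 2 * ((D ω).memory.formula c t).size * Z ^ 2) :=
          Finset.sum_le_sum fun c _ => Finset.sum_le_sum fun t _ => h2 c t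
      _ = _ := by
          unfold Memory.size
          push_cast
          simp_rw [← Finset.mul_sum, ← Finset.sum_mul, ← Finset.mul_sum]
  -- comparison
  have hcmp : (k : ℝ) ^ 2 * ((u : ℝ) / (4000 * (w * C)) * Z ^ 2) ≤
      3 * (S * Z ^ 2) := by
    calc (k : ℝ) ^ 2 * ((u : ℝ) / (4000 * (w * C)) * Z ^ 2)
        = ∑ pr : Fin k × Fin k, (u : ℝ) / (4000 * (w * C)) * Z ^ 2 := by
          rw [Finset.sum_const, nsmul_eq_mul, Finset.card_univ, Fintype.card_prod,
            Fintype.card_fin]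
          push_cast
          ring
      _ ≤ ∑ pr : Fin k × Fin k, ∑ ζ', ∑ ζ, g pr ζ' ζ := Finset.sum_le_sum fun pr _ => hlow pr
      _ = ∑ ω, p ω * ∑ pr : Fin k × Fin k, ∑ ζ' : Fin k ⊕ Fin k → (Fin n → Fin m),
          ∑ ζ : Fin k ⊕ Fin k → (Fin n → Fin m),
          ((own (D ω) (fun i => sb (ζ i)) (fun i => sb (ζ' i)) pr).card : ℝ) := by
          rw [hg]
          simp_rw [Finset.mul_sum]
          have e2 : ∀ f : Fin k × Fin k → (Fin k ⊕ Fin k → (Fin n → Fin m)) →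
              (Fin k ⊕ Fin k → (Fin n → Fin m)) → Ω → ℝ,
              ∑ pr, ∑ ζ', ∑ ζ, ∑ ω, f pr ζ' ζ ω = ∑ ω, ∑ pr, ∑ ζ', ∑ ζ, f pr ζ' ζ ω := by
            intro f
            have a1 : ∀ pr, ∑ ζ', ∑ ζ, ∑ ω, f pr ζ' ζ ω = ∑ ω, ∑ ζ', ∑ ζ, f pr ζ' ζ ω := by
              intro pr
              have a2 : ∀ ζ', ∑ ζ, ∑ ω, f pr ζ' ζ ω = ∑ ω, ∑ ζ, f pr ζ' ζ ω := by
                intro ζ'
                rw [Finset.sum_comm]
              rw [Finset.sum_congr rfl fun ζ' _ => a2 ζ', Finset.sum_comm]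
            rw [Finset.sum_congr rfl fun pr _ => a1 pr, Finset.sum_comm]
          exact e2 _
      _ ≤ ∑ ω, p ω * (3 * ((d : ℝ) ^ 2 * (D ω).memory.size * Z ^ 2)) :=
          Finset.sum_le_sum fun ω _ => mul_le_mul_of_nonneg_left (hup ω) (hp ω)
      _ = _ := by
          rw [hS, Finset.mul_sum, Finset.sum_mul, Finset.mul_sum]
          refine Finset.sum_congr rfl fun ω _ => ?_
          ring
  have hZ2 : 0 < Z ^ 2 := by positivity
  have hC0 : 0 < C := by linarith
  have hw0 : (0 : ℝ) < w := by linarith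
  have h5 : Z ^ 2 * ((k : ℝ) ^ 2 * ((u : ℝ) / (4000 * (w * C)))) ≤
      Z ^ 2 * (3 * S) := by
    nlinarith
  have h6 := le_of_mul_le_mul_left h5 hZ2
  have h7 : (k : ℝ) ^ 2 * u ≤ 12000 * (w * C * S) := by
    have e1 : (k : ℝ) ^ 2 * ((u : ℝ) / (4000 * (w * C))) = (k : ℝ) ^ 2 * u / (4000 * (w * C)) := by
      ring
    rw [e1, div_le_iff₀ (by positivity)] at h6
    refine h6.trans (le_of_eq ?_)
    ring
  have hn4' : (N : ℝ) ≤ 4 * n * k := by exact_mod_cast hn4
  have hm4 : (m : ℝ) ^ 4 ≤ (1501 * x) ^ 4 := pow_le_pow_left₀ (by linarith) hm2 4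
  calc (N : ℝ) ^ 2 ≤ (4 * n * k) ^ 2 := pow_le_pow_left₀ (by positivity) hn4' 2
    _ = 16 * (m : ℝ) ^ 4 * u * ((k : ℝ) ^ 2 * u) := by rw [hn']; ring
    _ ≤ 16 * (1501 * x) ^ 4 * (600 * T) * (12000 * (w * C * S)) := by gcongr
    _ = (16 * 1501 ^ 4 * 600 * 12000) * (x ^ 4 * w * C * T * S) := by ring
    _ ≤ 10 ^ 21 * (x ^ 4 * w * C * T * S) := by
        have : 0 ≤ x ^ 4 * w * C * T * S := by positivity
        nlinarith
    _ = _ := by rw [hx, hS]; ring

end Pool.Agent.U593.FM.Lst
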