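import Pool.Agent.U593.FM.Form
import Pool.Agent.U121.SI.Corner

set_option autoImplicit false
set_option linter.unusedSectionVars false
set_option linter.unusedVariables false

/-!
U593/FM (helper593, MP_e016b3_lc, MP_f326ae_lc): the spectral norm of the sensitivity graph of a
de Morgan formula (Koutsoupias), as an inequality for a bilinear form.
-/

namespace Pool.Agent.U593.FM

open Finset Pool.Agent.U121.SI

open scoped Classical

variable {I : Type} [Fintype I] [DecidableEq I] {J : Type}

/-- the bilinear form of the sensitivity graph -/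
noncomputable def Q (f : (I → Bool) → Bool) (u v : (I → Bool) → ℝ) : ℝ :=
  ∑ x : I → Bool, ∑ i : I,
    if f x = false ∧ f (Y601.SSE.flip i x) = true then u x * v (Y601.SSE.flip i x) else 0

/-- the squared norm on the zeros or on the ones -/
noncomputable def nm (f : (I → Bool) → Bool) (b : Bool) (u : (I → Bool) → ℝ) : ℝ :=
  ∑ x : I → Bool, if f x = b then u x ^ 2 else 0

lemma nm_nonneg (f : (I → Bool) → Bool) (b : Bool) (u : (I → Bool) → ℝ) : 0 ≤ nm f b u :=
  sum_nonneg fun x _ => by split_ifs <;> positivity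

/-- flipping a bit is a bijection -/
lemma sum_flip (i : I) (F : (I → Bool) → ℝ) :
    ∑ x : I → Bool, F (Y601.SSE.flip i x) = ∑ x : I → Bool, F x := by
  let e : (I → Bool) ≃ (I → Bool) :=
    { toFun := Y601.SSE.flip i
      invFun := Y601.SSE.flip i
      left_inv := fun x => Y601.SSE.flip_flip i x
      right_inv := fun x => Y601.SSE.flip_flip i x }
  exact e.sum_comp F

/-- the inequality for a function with sensitivity at most `d` -/
lemma q_loc (f : (I → Bool) → Bool) {d : ℕ} (hd : 1 ≤ d)
    (hf : ∀ x, (univ.filter fun i => f (Y601.SSE.flip i x) ≠ f x).card ≤ d)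
    (u v : (I → Bool) → ℝ) {α β : ℝ} (hα : 0 < α) (hβ : 0 < β) (hαβ : α * β = (d : ℝ) ^ 2) :
    2 * Q f u v ≤ α * nm f false u + β * nm f true v := by
  have hd0 : (0 : ℝ) < d := by exact_mod_cast hd
  have hf' : ∀ x, ∑ i : I, (if f (Y601.SSE.flip i x) ≠ f x then (1 : ℝ) else 0) ≤ d := by
    intro x
    have h1 : ((univ.filter fun i => f (Y601.SSE.flip i x) ≠ f x).card : ℝ) ≤ d := by
      exact_mod_cast hf x
    rw [card_filter] at h1
    push_cast at h1
    exact h1
  have h2 : ∀ (x : I → Bool) (i : I), 2 * (if f x = false ∧ f (Y601.SSE.flip i x) = true then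
      u x * v (Y601.SSE.flip i x) else 0) ≤
      (if f x = false ∧ f (Y601.SSE.flip i x) = true then α / d * u x ^ 2 else 0) +
      (if f x = false ∧ f (Y601.SSE.flip i x) = true then
        β / d * v (Y601.SSE.flip i x) ^ 2 else 0) := by
    intro x i
    split_ifs with c
    · generalize u x = a
      generalize v (Y601.SSE.flip i x) = b
      have h3 : 0 ≤ α / d * (a - β / d * b) ^ 2 := by positivity
      have h4 : α / d * (a - β / d * b) ^ 2 = α / d * a ^ 2 - 2 * (α * β) / d ^ 2 * (a * b) +
          (α * β) / d ^ 2 * (β / d * b ^ 2) := by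
        field_simp
        ring
      rw [h4, hαβ] at h3
      have h5 : (2 * (d : ℝ) ^ 2) / (d : ℝ) ^ 2 = 2 := by field_simp
      have h6 : (d : ℝ) ^ 2 / (d : ℝ) ^ 2 = 1 := by field_simp
      rw [h5, h6] at h3
      linarith
    · linarith
  have h7 : ∑ x : I → Bool, ∑ i : I,
      (if f x = false ∧ f (Y601.SSE.flip i x) = true then α / d * u x ^ 2 else 0) ≤
      α * nm f false u := by
    unfold nm
    rw [mul_sum]
    refine sum_le_sum fun x _ => ?_
    by_cases c : f x = false
    · rw [if_pos c]
      have e1 : ∀ i : I, (if f x = false ∧ f (Y601.SSE.flip i x) = true then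
          α / d * u x ^ 2 else 0) =
          α / d * u x ^ 2 * if f (Y601.SSE.flip i x) ≠ f x then (1 : ℝ) else 0 := by
        intro i
        rcases h2 : f (Y601.SSE.flip i x) <;> simp [c, h2]
      rw [sum_congr rfl fun i _ => e1 i, ← mul_sum]
      calc _ ≤ α / d * u x ^ 2 * d := mul_le_mul_of_nonneg_left (hf' x) (by positivity)
        _ = _ := by field_simp
    · rw [if_neg c, mul_zero]
      refine (sum_eq_zero fun i _ => ?_).le
      rw [if_neg fun h => c h.1]
  have h8 : ∑ x : I → Bool, ∑ i : I,
      (if f x = false ∧ f (Y601.SSE.flip i x) = true then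
        β / d * v (Y601.SSE.flip i x) ^ 2 else 0) ≤ β * nm f true v := by
    rw [sum_comm]
    have e0 : ∀ i : I, (∑ x : I → Bool, if f x = false ∧ f (Y601.SSE.flip i x) = true then
        β / d * v (Y601.SSE.flip i x) ^ 2 else 0) =
        ∑ x : I → Bool, if f (Y601.SSE.flip i x) = false ∧ f x = true then
          β / d * v x ^ 2 else 0 := by
      intro i
      rw [← sum_flip i]
      refine sum_congr rfl fun x _ => ?_
      rw [Y601.SSE.flip_flip]
    rw [sum_congr rfl fun i _ => e0 i, sum_comm]
    unfold nm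
    rw [mul_sum]
    refine sum_le_sum fun x _ => ?_
    by_cases c : f x = true
    · rw [if_pos c]
      have e1 : ∀ i : I, (if f (Y601.SSE.flip i x) = false ∧ f x = true then
          β / d * v x ^ 2 else 0) =
          β / d * v x ^ 2 * if f (Y601.SSE.flip i x) ≠ f x then (1 : ℝ) else 0 := by
        intro i
        rcases h2 : f (Y601.SSE.flip i x) <;> simp [c, h2]
      rw [sum_congr rfl fun i _ => e1 i, ← mul_sum]
      calc _ ≤ β / d * v x ^ 2 * d := mul_le_mul_of_nonneg_left (hf' x) (by positivity)
        _ = _ := by field_simp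
    · rw [if_neg c, mul_zero]
      refine (sum_eq_zero fun i _ => ?_).le
      rw [if_neg fun h => c h.2]
  unfold Q
  rw [mul_sum]
  simp_rw [mul_sum]
  refine (sum_le_sum fun x _ => sum_le_sum fun i _ => h2 x i).trans ?_
  simp_rw [sum_add_distrib]
  exact add_le_add h7 h8

/-- splitting of the zeros of a conjunction -/
lemma q_and (g h : (I → Bool) → Bool) (u v : (I → Bool) → ℝ) :
    Q (fun x => g x && h x) u v =
      Q g u (fun y => if g y && h y then v y else 0) +
      Q h (fun x => if g x then u x else 0) (fun y => if g y && h y then v y else 0) := by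
  unfold Q
  rw [← sum_add_distrib]
  refine sum_congr rfl fun x _ => ?_
  rw [← sum_add_distrib]
  refine sum_congr rfl fun i _ => ?_
  rcases h1 : g x <;> rcases h2 : h x <;> rcases h3 : g (Y601.SSE.flip i x) <;>
    rcases h4 : h (Y601.SSE.flip i x) <;> simp [h1, h2, h3, h4]

lemma nm_and_false (g h : (I → Bool) → Bool) (u : (I → Bool) → ℝ) :
    nm (fun x => g x && h x) false u = nm g false u + nm h false (fun x => if g x then u x else 0) := by
  unfold nm
  rw [← sum_add_distrib]
  refine sum_congr rfl fun x _ => ?_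
  rcases h1 : g x <;> rcases h2 : h x <;> simp [h1, h2]

lemma nm_and_true (g h : (I → Bool) → Bool) (v : (I → Bool) → ℝ) :
    nm g true (fun y => if g y && h y then v y else 0) = nm (fun x => g x && h x) true v ∧
    nm h true (fun y => if g y && h y then v y else 0) = nm (fun x => g x && h x) true v := by
  unfold nm
  constructor <;> refine sum_congr rfl fun x _ => ?_ <;> rcases h1 : g x <;>
    rcases h2 : h x <;> simp [h1, h2]

/-- splitting of the ones of a disjunction -/
lemma q_or (g h : (I → Bool) → Bool) (u v : (I → Bool) → ℝ) :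
    Q (fun x => g x || h x) u v =
      Q g (fun x => if g x || h x then 0 else u x) v +
      Q h (fun x => if g x || h x then 0 else u x) (fun y => if g y then 0 else v y) := by
  unfold Q
  rw [← sum_add_distrib]
  refine sum_congr rfl fun x _ => ?_
  rw [← sum_add_distrib]
  refine sum_congr rfl fun i _ => ?_
  rcases h1 : g x <;> rcases h2 : h x <;> rcases h3 : g (Y601.SSE.flip i x) <;>
    rcases h4 : h (Y601.SSE.flip i x) <;> simp [h1, h2, h3, h4]

lemma nm_or_true (g h : (I → Bool) → Bool) (v : (I → Bool) → ℝ) :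
    nm (fun x => g x || h x) true v = nm g true v + nm h true (fun y => if g y then 0 else v y) := by
  unfold nm
  rw [← sum_add_distrib]
  refine sum_congr rfl fun x _ => ?_
  rcases h1 : g x <;> rcases h2 : h x <;> simp [h1, h2]

lemma nm_or_false (g h : (I → Bool) → Bool) (u : (I → Bool) → ℝ) :
    nm g false (fun x => if g x || h x then 0 else u x) = nm (fun x => g x || h x) false u ∧
    nm h false (fun x => if g x || h x then 0 else u x) = nm (fun x => g x || h x) false u := by
  unfold nm
  constructor <;> refine sum_congr rfl fun x _ => ?_ <;> rcases h1 : g x <;>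
    rcases h2 : h x <;> simp [h1, h2]

lemma size_pos (F : Formula J) : 1 ≤ F.size := by
  induction F with
  | leaf j => exact le_refl _
  | and F G h1 h2 => show 1 ≤ F.size + G.size; omega
  | or F G h1 h2 => show 1 ≤ F.size + G.size; omega

/-- **The spectral bound for de Morgan formulas.** -/
theorem q_formula (σ : (I → Bool) → J → Bool) {d : ℕ} (hd : 1 ≤ d)
    (hσ : ∀ j x, (univ.filter fun i => σ (Y601.SSE.flip i x) j ≠ σ x j).card ≤ d)
    (F : Formula J) :
    ∀ (u v : (I → Bool) → ℝ) (α β : ℝ), 0 < α → 0 < β → α * β = (d : ℝ) ^ 2 * F.size →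
      2 * Q (fun x => F.eval (σ x)) u v ≤
        α * nm (fun x => F.eval (σ x)) false u + β * nm (fun x => F.eval (σ x)) true v := by
  have hd0 : (0 : ℝ) < d := by exact_mod_cast hd
  induction F with
  | leaf j =>
    intro u v α β hα hβ h
    refine q_loc _ hd (fun x => hσ j x) u v hα hβ ?_
    rw [h]
    have : (Formula.leaf j).size = 1 := rfl
    rw [this, Nat.cast_one, mul_one]
  | and F G ihF ihG =>
    intro u v α β hα hβ h
    have hF : (0 : ℝ) < F.size := by exact_mod_cast size_pos F
    have hG : (0 : ℝ) < G.size := by exact_mod_cast size_pos G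
    have h' : α * β = (d : ℝ) ^ 2 * F.size + (d : ℝ) ^ 2 * G.size := by
      rw [h, ← mul_add]
      congr 1
      exact Nat.cast_add _ _
    have e0 : (fun x => (Formula.and F G).eval (σ x)) =
        fun x => F.eval (σ x) && G.eval (σ x) := rfl
    rw [e0, q_and (fun x => F.eval (σ x)) (fun x => G.eval (σ x)),
      nm_and_false (fun x => F.eval (σ x)) (fun x => G.eval (σ x))]
    have h1 := ihF u (fun y => if F.eval (σ y) && G.eval (σ y) then v y else 0) α
      ((d : ℝ) ^ 2 * F.size / α) hα (by positivity) (by field_simp)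
    have h2 := ihG (fun x => if F.eval (σ x) then u x else 0)
      (fun y => if F.eval (σ y) && G.eval (σ y) then v y else 0) α
      ((d : ℝ) ^ 2 * G.size / α) hα (by positivity) (by field_simp)
    rw [(nm_and_true (fun x => F.eval (σ x)) (fun x => G.eval (σ x)) v).1] at h1
    rw [(nm_and_true (fun x => F.eval (σ x)) (fun x => G.eval (σ x)) v).2] at h2
    have h3 : β = (d : ℝ) ^ 2 * F.size / α + (d : ℝ) ^ 2 * G.size / α := by
      field_simp
      linarith
    rw [h3]
    linarith
  | or F G ihF ihG =>
    intro u v α β hα hβ h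
    have hF : (0 : ℝ) < F.size := by exact_mod_cast size_pos F
    have hG : (0 : ℝ) < G.size := by exact_mod_cast size_pos G
    have h' : α * β = (d : ℝ) ^ 2 * F.size + (d : ℝ) ^ 2 * G.size := by
      rw [h, ← mul_add]
      congr 1
      exact Nat.cast_add _ _
    have e0 : (fun x => (Formula.or F G).eval (σ x)) =
        fun x => F.eval (σ x) || G.eval (σ x) := rfl
    rw [e0, q_or (fun x => F.eval (σ x)) (fun x => G.eval (σ x)),
      nm_or_true (fun x => F.eval (σ x)) (fun x => G.eval (σ x))]
    have h1 := ihF (fun x => if F.eval (σ x) || G.eval (σ x) then 0 else u x) v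
      ((d : ℝ) ^ 2 * F.size / β) β (by positivity) hβ (by field_simp)
    have h2 := ihG (fun x => if F.eval (σ x) || G.eval (σ x) then 0 else u x)
      (fun y => if F.eval (σ y) then 0 else v y) ((d : ℝ) ^ 2 * G.size / β) β (by positivity) hβ
      (by field_simp)
    rw [(nm_or_false (fun x => F.eval (σ x)) (fun x => G.eval (σ x)) u).1] at h1
    rw [(nm_or_false (fun x => F.eval (σ x)) (fun x => G.eval (σ x)) u).2] at h2
    have h3 : α = (d : ℝ) ^ 2 * F.size / β + (d : ℝ) ^ 2 * G.size / β := by
      field_simp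
      linarith
    rw [h3]
    linarith

/-- the sensitivity -/
noncomputable def sens (f : (I → Bool) → Bool) (x : I → Bool) : ℝ :=
  ∑ i : I, if f (Y601.SSE.flip i x) ≠ f x then (1 : ℝ) else 0

/-- **The mean square of the sensitivity of a formula is at most the number of leaves.** -/
theorem sens_sq (f : (I → Bool) → Bool) (L : ℝ) (hL : 0 < L)
    (h : ∀ (u v : (I → Bool) → ℝ) (α β : ℝ), 0 < α → 0 < β → α * β = L →
      2 * Q f u v ≤ α * nm f false u + β * nm f true v) :
    ∑ x : I → Bool, sens f x ^ 2 ≤ 2 ^ Fintype.card I * L := by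
  have h1 : Q f (sens f) (fun _ => 1) = nm f false (sens f) := by
    unfold Q nm
    refine sum_congr rfl fun x _ => ?_
    by_cases c : f x = false
    · rw [if_pos c]
      have e1 : ∀ i : I, (if f x = false ∧ f (Y601.SSE.flip i x) = true then sens f x * 1 else 0) =
          sens f x * if f (Y601.SSE.flip i x) ≠ f x then (1 : ℝ) else 0 := by
        intro i
        rcases h2 : f (Y601.SSE.flip i x) <;> simp [c, h2]
      rw [sum_congr rfl fun i _ => e1 i, ← mul_sum, sq]
      rfl
    · rw [if_neg c]
      refine sum_eq_zero fun i _ => ?_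
      rw [if_neg fun h => c h.1]
  have h2 : Q f (fun _ => 1) (sens f) = nm f true (sens f) := by
    unfold Q nm
    rw [sum_comm]
    have e0 : ∀ i : I, (∑ x : I → Bool, if f x = false ∧ f (Y601.SSE.flip i x) = true then
        1 * sens f (Y601.SSE.flip i x) else 0) =
        ∑ x : I → Bool, if f (Y601.SSE.flip i x) = false ∧ f x = true then sens f x else 0 := by
      intro i
      rw [← sum_flip i]
      refine sum_congr rfl fun x _ => ?_
      rw [Y601.SSE.flip_flip, one_mul]
    rw [sum_congr rfl fun i _ => e0 i, sum_comm]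
    refine sum_congr rfl fun x _ => ?_
    by_cases c : f x = true
    · rw [if_pos c]
      have e1 : ∀ i : I, (if f (Y601.SSE.flip i x) = false ∧ f x = true then sens f x else 0) =
          sens f x * if f (Y601.SSE.flip i x) ≠ f x then (1 : ℝ) else 0 := by
        intro i
        rcases h2 : f (Y601.SSE.flip i x) <;> simp [c, h2]
      rw [sum_congr rfl fun i _ => e1 i, ← mul_sum, sq]
      rfl
    · rw [if_neg c]
      refine sum_eq_zero fun i _ => ?_
      rw [if_neg fun h => c h.2]
  have h3 := h (sens f) (fun _ => 1) 1 L one_pos hL (one_mul _)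
  have h4 := h (fun _ => 1) (sens f) L 1 hL one_pos (mul_one _)
  rw [h1] at h3
  rw [h2] at h4
  have h5 : ∑ x : I → Bool, sens f x ^ 2 = nm f false (sens f) + nm f true (sens f) := by
    unfold nm
    rw [← sum_add_distrib]
    refine sum_congr rfl fun x _ => ?_
    rcases h2 : f x <;> simp [h2]
  have h6 : nm f false (fun _ => 1) + nm f true (fun _ => 1) = 2 ^ Fintype.card I := by
    unfold nm
    rw [← sum_add_distrib]
    have e1 : ∀ x : I → Bool, ((if f x = false then (1 : ℝ) ^ 2 else 0) +
        if f x = true then (1 : ℝ) ^ 2 else 0) = 1 := by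
      intro x
      rcases h2 : f x <;> simp [h2]
    rw [sum_congr rfl fun x _ => e1 x, sum_const, nsmul_eq_mul, card_univ, Fintype.card_fun]
    simp
  rw [h5, ← h6]
  nlinarith

variable {k : ℕ}

/-- the number of sensitive pairs is at most the square of the sensitivity -/
lemma two_le (f : (Fin k ⊕ Fin k → Bool) → Bool) (x : Fin k ⊕ Fin k → Bool) :
    ((univ.filter fun p : Fin k × Fin k => Two f x p).card : ℝ) ≤ sens f x ^ 2 := by
  have h1 : sens f x = ((univ.filter fun i => f (Y601.SSE.flip i x) ≠ f x).card : ℝ) := by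
    unfold sens
    rw [card_filter]
    push_cast
    rfl
  have h2 : (univ.filter fun p : Fin k × Fin k => Two f x p).card ≤
      ((univ.filter fun i => f (Y601.SSE.flip i x) ≠ f x) ×ˢ
        (univ.filter fun i => f (Y601.SSE.flip i x) ≠ f x)).card := by
    refine card_le_card_of_injOn (fun p => (Sum.inl p.1, Sum.inr p.2)) ?_ ?_
    · intro p hp
      rw [mem_coe, mem_filter] at hp
      rw [mem_coe, mem_product, mem_filter, mem_filter]
      exact ⟨⟨mem_univ _, hp.2.1⟩, ⟨mem_univ _, hp.2.2⟩⟩
    · intro p _ q _ h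
      simp only [Prod.mk.injEq, Sum.inl.injEq, Sum.inr.injEq] at h
      exact Prod.ext h.1 h.2
  rw [card_product, ← sq] at h2
  rw [h1]
  exact_mod_cast h2

/-- **The mean number of sensitive pairs of a formula.** -/
theorem pair_formula (σ : (Fin k ⊕ Fin k → Bool) → J → Bool) {d : ℕ} (hd : 1 ≤ d)
    (hσ : ∀ j x, (univ.filter fun i => σ (Y601.SSE.flip i x) j ≠ σ x j).card ≤ d)
    (F : Formula J) :
    ∑ x : Fin k ⊕ Fin k → Bool,
      ((univ.filter fun p : Fin k × Fin k => Two (fun x => F.eval (σ x)) x p).card : ℝ) ≤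
      2 ^ (k + k) * ((d : ℝ) ^ 2 * F.size) := by
  have hF : (0 : ℝ) < F.size := by exact_mod_cast size_pos F
  have hd0 : (0 : ℝ) < d := by exact_mod_cast hd
  have h1 := sens_sq (fun x => F.eval (σ x)) ((d : ℝ) ^ 2 * F.size) (by positivity)
    (q_formula σ hd hσ F)
  refine (sum_le_sum fun x _ => two_le _ x).trans (h1.trans (le_of_eq ?_))
  simp

variable {X : Type} [Fintype X]

/-- for a function of the blocks which is computed by a formula -/
theorem sum_Th_formula {c : (Fin k ⊕ Fin k → X) → Bool} (F : Formula J)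
    (inp : J → (Fin k ⊕ Fin k → X) → Bool) {d : ℕ} (hd : 1 ≤ d)
    (hinp : ∀ j, Local d (inp j))
    (hc : ∀ z, c z = F.eval fun j => inp j z) :
    ∑ p, (Th c p : ℝ) ≤ (d : ℝ) ^ 2 * F.size *
      (Fintype.card (Fin k ⊕ Fin k → X) : ℝ) ^ 2 := by
  have h1 : ∀ q : (Fin k ⊕ Fin k → X) × (Fin k ⊕ Fin k → X),
      ∑ x : Fin k ⊕ Fin k → Bool,
        ((univ.filter fun p : Fin k × Fin k => Two (FF c q.1 q.2) x p).card : ℝ) ≤
      2 ^ (k + k) * ((d : ℝ) ^ 2 * F.size) := by
    intro q
    have e1 : FF c q.1 q.2 = fun x => F.eval ((fun (x : Fin k ⊕ Fin k → Bool) (j : J) =>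
        inp j (sel q.1 q.2 x)) x) := by
      funext x
      exact hc _
    rw [e1]
    refine pair_formula (fun x j => inp j (sel q.1 q.2 x)) hd ?_ F
    intro j x
    obtain ⟨S, hS, hS'⟩ := hinp j (sel q.1 q.2 x)
    refine le_trans (card_le_card ?_) hS
    intro i hi
    rw [mem_filter] at hi
    by_contra hiS
    apply hi.2
    apply hS'
    intro l hl
    have hli : l ≠ i := fun h => hiS (h ▸ hl)
    unfold sel Y601.SSE.flip
    rw [Function.update_of_ne hli]
  have h2 : (2 : ℝ) ^ (k + k) * ∑ p, (Th c p : ℝ) =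
      ∑ q : (Fin k ⊕ Fin k → X) × (Fin k ⊕ Fin k → X), ∑ x : Fin k ⊕ Fin k → Bool,
        ((univ.filter fun p : Fin k × Fin k => Two (FF c q.1 q.2) x p).card : ℝ) := by
    have e1 : ∀ x : Fin k ⊕ Fin k → Bool, ∑ p, (Th c p : ℝ) =
        ∑ q : (Fin k ⊕ Fin k → X) × (Fin k ⊕ Fin k → X),
        ((univ.filter fun p : Fin k × Fin k => Two (FF c q.1 q.2) x p).card : ℝ) := by
      intro x
      simp_rw [← Th_eq c x, card_filter]
      push_cast
      rw [sum_comm]
    rw [sum_comm, ← sum_congr rfl fun x _ => e1 x, sum_const, nsmul_eq_mul, card_univ]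
    congr 1
    rw [Fintype.card_fun]
    simp
  have h3 : (2 : ℝ) ^ (k + k) * ∑ p, (Th c p : ℝ) ≤
      2 ^ (k + k) * ((d : ℝ) ^ 2 * F.size * (Fintype.card (Fin k ⊕ Fin k → X) : ℝ) ^ 2) := by
    rw [h2]
    refine (sum_le_sum fun q _ => h1 q).trans ?_
    rw [sum_const, nsmul_eq_mul, card_univ, Fintype.card_prod]
    push_cast
    apply le_of_eq
    ring
  exact le_of_mul_le_mul_left h3 (by positivity)

/-- **The bits of formulas are approximated for most pairs of blocks.** -/
theorem sum_err_formula {c : (Fin k ⊕ Fin k → X) → Bool} (F : Formula J)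
    (inp : J → (Fin k ⊕ Fin k → X) → Bool) {d : ℕ} (hd : 1 ≤ d)
    (hinp : ∀ j, Local d (inp j))
    (hc : ∀ z, c z = F.eval fun j => inp j z) :
    ∑ p, ((univ.filter fun q : (Fin k ⊕ Fin k → X) × (Fin k ⊕ Fin k → X) =>
      ap c q.1 q.2 p ≠ c q.1).card : ℝ) ≤ 3 * ((d : ℝ) ^ 2 * F.size *
      (Fintype.card (Fin k ⊕ Fin k → X) : ℝ) ^ 2) := by
  have h1 : ∀ p : Fin k × Fin k, ((univ.filter fun q : (Fin k ⊕ Fin k → X) ×
      (Fin k ⊕ Fin k → X) => ap c q.1 q.2 p ≠ c q.1).card : ℝ) ≤ 3 * (Th c p : ℝ) := by
    intro p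
    exact_mod_cast ap_err c p
  refine (sum_le_sum fun p _ => h1 p).trans ?_
  rw [← mul_sum]
  have := sum_Th_formula F inp hd hinp hc
  linarith

end Pool.Agent.U593.FM
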