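import Pool.Agent.U121.SI.ListDefs
import Pool.Agent.U593.FM.Form

set_option autoImplicit false

/-!
U593/FM (helper593, MP_f326ae_lc): data structures for SetIntersection (listing) whose joint memory
is computed by de Morgan formulas (definitions).
-/

namespace Pool.Agent.U593.FM.Lst

open Finset

open Pool.Agent.U121.SI.Lst (LQuery)

open scoped Classical

/-- A memory for two families `X`, `Y` of `k` sets, with `s` joint cells of `w` bits: every bit of
every cell is given by a de Morgan formula, whose leaves are arbitrary functions of the `2 k` sets
(`Sum.inl i` is the place of `X i`, `Sum.inr j` is the place of `Y j`) with certificates of at most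
`d` sets; for instance the values of procedures which read at most `d` sets adaptively, and for
`d = 1` all functions of single sets. -/
structure Memory (k d w s : ℕ) where
  /-- the formula of the bit `t` of the cell `c` -/
  formula : Fin s → Fin w → Formula {φ : (Fin k ⊕ Fin k → Finset ℕ) → Bool // Local d φ}

/-- The contents of the joint cells for the families `X` and `Y`. -/
def Memory.cells {k d w s : ℕ} (D : Memory k d w s) (X Y : Fin k → Finset ℕ) :
    Fin s → Fin w → Bool :=
  fun c t => (D.formula c t).eval fun φ => φ.1 (Sum.elim X Y)

/-- The total size (number of leaves) of the formulas of all bits of all joint cells. -/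
def Memory.size {k d w s : ℕ} (D : Memory k d w s) : ℕ := ∑ c, ∑ t, (D.formula c t).size

/-- A data structure for SetIntersection: a joint memory, and for every `i` and `j` an adaptive
query, whose result is a finite set of numbers, and which reads joint cells and arbitrary functions
(of `w` bits) of the first family alone and of the second family alone. -/
structure DS (k d w s : ℕ) where
  /-- the joint memory -/
  memory : Memory k d w s
  /-- the queries -/
  query : Fin k → Fin k → LQuery (Fin k → Finset ℕ) (Fin k → Finset ℕ) (Finset ℕ) w s

/-- For the families `X` and `Y`, the result of the query is `X i ∩ Y j`, and it makes at most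
`C * (T + op)` steps, where `op` is the size of `X i ∩ Y j`. -/
def DS.Good {k d w s : ℕ} (D : DS k d w s) (C T : ℝ) (X Y : Fin k → Finset ℕ) (i j : Fin k) : Prop :=
  (D.query i j).eval (D.memory.cells X Y) X Y = X i ∩ Y j ∧
    ((D.query i j).steps (D.memory.cells X Y) X Y : ℝ) ≤ C * (T + (X i ∩ Y j).card)

/-- The random data structure (`D ω` with probability `p ω`) solves SetIntersection with query time
`C * (T + op)`: for all families `X`, `Y` of total size at most `N` of sets of numbers less than
`N`, and all `i` and `j`, the query is `Good` with probability at least `1 / 2`. -/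
def Solves {k d w s : ℕ} (N : ℕ) (C T : ℝ) {Ω : Type} [Fintype Ω] (p : Ω → ℝ)
    (D : Ω → DS k d w s) : Prop :=
  ∀ (X Y : Fin k → Finset ℕ), ∑ i, (X i).card + ∑ j, (Y j).card ≤ N →
    (∀ i, ∀ e ∈ X i, e < N) → (∀ j, ∀ e ∈ Y j, e < N) → ∀ i j,
    1 / 2 ≤ ∑ ω, if (D ω).Good C T X Y i j then p ω else 0

end Pool.Agent.U593.FM.Lst
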