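import Pool.Agent.U593.FM.Spec
import Pool.Agent.U121.SI.Main

set_option autoImplicit false
set_option linter.unusedSectionVars false
set_option linter.unusedVariables false

/-!
U593/FM (helper593, MP_e016b3_lc, MP_f326ae_lc): the theorem for blocks, for arbitrary cells, in
terms of the number of pairs of blocks for which the approximation of a bit is wrong. The proof is
a variant of `Pool.Agent.U121.SI.block_main` (helper121).
-/

namespace Pool.Agent.U593.FM

open Finset Pool.Agent.U121.SI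

open scoped Classical

section main

variable {k m w s T : ℕ} {L₁ L₂ : Type}

/-- **Main theorem for blocks.** -/
theorem block_gen (hm : m = 16 * (4 * (2 * w * T + 5))) {Ω : Type} [Fintype Ω] (p : Ω → ℝ)
    (hp : ∀ ω, 0 ≤ p ω) (hp1 : ∑ ω, p ω = 1)
    (bit : Ω → Fin s → Fin w → (Fin k ⊕ Fin k → (Fin m → Fin m)) → Bool)
    (R : Ω → ℝ) (hR : ∀ ω, 0 ≤ R ω)
    (hbit : ∀ ω, ∑ c : Fin s, ∑ t : Fin w, ∑ pr : Fin k × Fin k,
      ((univ.filter fun q : (Fin k ⊕ Fin k → (Fin m → Fin m)) ×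
          (Fin k ⊕ Fin k → (Fin m → Fin m)) => ap (bit ω c t) q.1 q.2 pr ≠
            bit ω c t q.1).card : ℝ) ≤
        3 * (R ω * (Fintype.card (Fin k ⊕ Fin k → (Fin m → Fin m)) : ℝ) ^ 2))
    (eL : (Fin k → (Fin m → Fin m)) → L₁) (eR : (Fin k → (Fin m → Fin m)) → L₂)
    (Q : Ω → Fin k × Fin k → Query L₁ L₂ w s) (hQ : ∀ ω pr, (Q ω pr).Within T)
    (herr : ∀ (z : Fin k ⊕ Fin k → (Fin m → Fin m)) (pr : Fin k × Fin k),
      ∑ ω, p ω * (if Wrong (Q ω pr) eL eR pr (fun c t => bit ω c t z) z then (1 : ℝ) else 0) ≤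
        1 / 1000) :
    (k : ℝ) ^ 2 ≤ 1600 * ∑ ω, p ω * R ω := by
  obtain ⟨Z, hZ⟩ : ∃ Z : ℝ, Z = Fintype.card (Fin k ⊕ Fin k → (Fin m → Fin m)) := ⟨_, rfl⟩
  have hm0 : 0 < m := by omega
  have : Nonempty (Fin m) := ⟨⟨0, hm0⟩⟩
  have hZ0 : 0 < Z := by
    rw [hZ]
    exact_mod_cast Fintype.card_pos
  -- for every `ω`
  have h1 : ∀ ω, 3 / 1024 * Z ^ 2 * (k : ℝ) ^ 2 ≤ 3 * R ω * Z ^ 2 +
      Z * ∑ pr : Fin k × Fin k, ∑ z : Fin k ⊕ Fin k → (Fin m → Fin m),
        (if Wrong (Q ω pr) eL eR pr (fun c t => bit ω c t z) z then (1 : ℝ) else 0) := by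
    intro ω
    have h2 : ∀ pr : Fin k × Fin k, 3 / 1024 * Z ^ 2 ≤
        (∑ c : Fin s, ∑ t : Fin w, ((univ.filter fun q : (Fin k ⊕ Fin k → (Fin m → Fin m)) ×
          (Fin k ⊕ Fin k → (Fin m → Fin m)) => ap (bit ω c t) q.1 q.2 pr ≠
            bit ω c t q.1).card : ℝ)) +
        Z * ∑ z : Fin k ⊕ Fin k → (Fin m → Fin m),
          (if Wrong (Q ω pr) eL eR pr (fun c t => bit ω c t z) z then (1 : ℝ) else 0) := by
      intro pr
      have e1 := approx_err hm (bit ω) eL eR (Q ω pr) (hQ ω pr) pr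
      rw [← hZ] at e1
      refine e1.trans ?_
      have e2 : (univ.filter fun zz : (Fin k ⊕ Fin k → (Fin m → Fin m)) ×
          (Fin k ⊕ Fin k → (Fin m → Fin m)) =>
          Wrong (Q ω pr) eL eR pr (fun c t => ap (bit ω c t) zz.1 zz.2 pr) zz.1) ⊆
          (univ.biUnion fun ct : Fin s × Fin w => univ.filter fun q :
            (Fin k ⊕ Fin k → (Fin m → Fin m)) × (Fin k ⊕ Fin k → (Fin m → Fin m)) =>
            ap (bit ω ct.1 ct.2) q.1 q.2 pr ≠ bit ω ct.1 ct.2 q.1) ∪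
          ((univ.filter fun z : Fin k ⊕ Fin k → (Fin m → Fin m) =>
            Wrong (Q ω pr) eL eR pr (fun c t => bit ω c t z) z) ×ˢ univ) := by
        intro zz hzz
        rw [mem_filter] at hzz
        rw [mem_union, mem_biUnion]
        by_cases hall : ∀ c t, ap (bit ω c t) zz.1 zz.2 pr = bit ω c t zz.1
        · right
          rw [mem_product, mem_filter]
          refine ⟨⟨mem_univ _, ?_⟩, mem_univ _⟩
          have : (fun c t => ap (bit ω c t) zz.1 zz.2 pr) = fun c t => bit ω c t zz.1 := by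
            funext c t
            exact hall c t
          rw [← this]
          exact hzz.2
        · left
          push Not at hall
          obtain ⟨c, t, hct⟩ := hall
          exact ⟨(c, t), mem_univ _, by rw [mem_filter]; exact ⟨mem_univ _, hct⟩⟩
      have e3 := (card_le_card e2).trans ((card_union_le _ _).trans
        (Nat.add_le_add_right card_biUnion_le _))
      have e4 : ((univ.filter fun zz : (Fin k ⊕ Fin k → (Fin m → Fin m)) ×
          (Fin k ⊕ Fin k → (Fin m → Fin m)) =>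
          Wrong (Q ω pr) eL eR pr (fun c t => ap (bit ω c t) zz.1 zz.2 pr) zz.1).card : ℝ) ≤
          ((∑ ct : Fin s × Fin w, (univ.filter fun q :
            (Fin k ⊕ Fin k → (Fin m → Fin m)) × (Fin k ⊕ Fin k → (Fin m → Fin m)) =>
            ap (bit ω ct.1 ct.2) q.1 q.2 pr ≠ bit ω ct.1 ct.2 q.1).card +
          ((univ.filter fun z : Fin k ⊕ Fin k → (Fin m → Fin m) =>
            Wrong (Q ω pr) eL eR pr (fun c t => bit ω c t z) z) ×ˢ
            (univ : Finset (Fin k ⊕ Fin k → (Fin m → Fin m)))).card : ℕ) : ℝ) := by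
        exact_mod_cast e3
      refine e4.trans (le_of_eq ?_)
      rw [card_product, Fintype.sum_prod_type, card_univ, card_filter, hZ]
      push_cast
      ring
    have h3 : ∑ pr : Fin k × Fin k, 3 / 1024 * Z ^ 2 = 3 / 1024 * Z ^ 2 * (k : ℝ) ^ 2 := by
      rw [sum_const, nsmul_eq_mul, card_univ, Fintype.card_prod, Fintype.card_fin]
      push_cast
      ring
    rw [← h3]
    refine (sum_le_sum fun pr _ => h2 pr).trans ?_
    rw [sum_add_distrib, ← mul_sum]
    have h4 : ∑ pr : Fin k × Fin k, ∑ c : Fin s, ∑ t : Fin w,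
        ((univ.filter fun q : (Fin k ⊕ Fin k → (Fin m → Fin m)) ×
          (Fin k ⊕ Fin k → (Fin m → Fin m)) => ap (bit ω c t) q.1 q.2 pr ≠
            bit ω c t q.1).card : ℝ) ≤ 3 * R ω * Z ^ 2 := by
      rw [sum_comm, sum_congr rfl fun c _ => sum_comm]
      have := hbit ω
      rw [← hZ] at this
      linarith
    linarith
  obtain ⟨S, hS⟩ : ∃ S : ℝ, S = ∑ ω, p ω * R ω := ⟨_, rfl⟩
  rw [← hS]
  have hS0 : 0 ≤ S := by
    rw [hS]
    exact sum_nonneg fun ω _ => mul_nonneg (hp ω) (hR ω)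
  have h5 : 3 / 1024 * Z ^ 2 * (k : ℝ) ^ 2 ≤ 3 * S * Z ^ 2 +
      Z * (Z * (k : ℝ) ^ 2 / 1000) := by
    have e1 : ∑ ω, p ω * (3 / 1024 * Z ^ 2 * (k : ℝ) ^ 2) ≤ ∑ ω, p ω *
        (3 * R ω * Z ^ 2 +
      Z * ∑ pr : Fin k × Fin k, ∑ z : Fin k ⊕ Fin k → (Fin m → Fin m),
        (if Wrong (Q ω pr) eL eR pr (fun c t => bit ω c t z) z then (1 : ℝ) else 0)) :=
      sum_le_sum fun ω _ => mul_le_mul_of_nonneg_left (h1 ω) (hp ω)
    rw [← sum_mul, hp1, one_mul] at e1
    refine e1.trans ?_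
    have e2 : ∑ ω, p ω * (3 * R ω * Z ^ 2 +
      Z * ∑ pr : Fin k × Fin k, ∑ z : Fin k ⊕ Fin k → (Fin m → Fin m),
        (if Wrong (Q ω pr) eL eR pr (fun c t => bit ω c t z) z then (1 : ℝ) else 0)) =
        3 * S * Z ^ 2 + Z * ∑ pr : Fin k × Fin k,
          ∑ z : Fin k ⊕ Fin k → (Fin m → Fin m), ∑ ω, p ω *
        (if Wrong (Q ω pr) eL eR pr (fun c t => bit ω c t z) z then (1 : ℝ) else 0) := by
      have e3 : ∀ ω, p ω * (3 * R ω * Z ^ 2 +
        Z * ∑ pr : Fin k × Fin k, ∑ z : Fin k ⊕ Fin k → (Fin m → Fin m),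
          (if Wrong (Q ω pr) eL eR pr (fun c t => bit ω c t z) z then (1 : ℝ) else 0)) =
          3 * Z ^ 2 * (p ω * R ω) + Z * ∑ pr : Fin k × Fin k,
          ∑ z : Fin k ⊕ Fin k → (Fin m → Fin m), p ω *
          (if Wrong (Q ω pr) eL eR pr (fun c t => bit ω c t z) z then (1 : ℝ) else 0) := by
        intro ω
        rw [mul_add]
        simp_rw [← mul_sum]
        ring
      rw [sum_congr rfl fun ω _ => e3 ω, sum_add_distrib, ← mul_sum, ← hS, ← mul_sum]
      congr 1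
      · ring
      congr 1
      rw [sum_comm]
      refine sum_congr rfl fun pr _ => ?_
      rw [sum_comm]
    rw [e2]
    have e4 : ∑ pr : Fin k × Fin k, ∑ z : Fin k ⊕ Fin k → (Fin m → Fin m), ∑ ω, p ω *
        (if Wrong (Q ω pr) eL eR pr (fun c t => bit ω c t z) z then (1 : ℝ) else 0) ≤
        ∑ pr : Fin k × Fin k, ∑ z : Fin k ⊕ Fin k → (Fin m → Fin m), (1 / 1000 : ℝ) :=
      sum_le_sum fun pr _ => sum_le_sum fun z _ => herr z pr
    have e5 : ∑ pr : Fin k × Fin k, ∑ z : Fin k ⊕ Fin k → (Fin m → Fin m), (1 / 1000 : ℝ) =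
        Z * (k : ℝ) ^ 2 / 1000 := by
      rw [sum_const, sum_const, nsmul_eq_mul, nsmul_eq_mul, card_univ, card_univ,
        Fintype.card_prod, Fintype.card_fin, ← hZ]
      push_cast
      ring
    rw [e5] at e4
    have := mul_le_mul_of_nonneg_left e4 hZ0.le
    linarith
  have hZ2 : 0 < Z ^ 2 := by positivity
  have h6 : Z ^ 2 * ((3 / 1024 - 1 / 1000) * (k : ℝ) ^ 2) ≤ Z ^ 2 * (3 * S) := by
    nlinarith
  have h7 := le_of_mul_le_mul_left h6 hZ2
  have hk2 : (0 : ℝ) ≤ (k : ℝ) ^ 2 := by positivity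
  nlinarith

end main

end Pool.Agent.U593.FM
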