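import Pool.Agent.U121.SI.Query
import Pool.Agent.U593.FM.Form

set_option autoImplicit false

/-!
U593/FM (helper593, MP_e016b3_lc): data structures for 3SUM-Indexing whose joint memory is computed
by de Morgan formulas (definitions).
-/

namespace Pool.Agent.U593.FM

open Finset Pool.Agent.U121.SI

open scoped Classical

/-- A memory for two arrays `A`, `B` of `n` numbers, with `s` joint cells of `w` bits: every bit of
every cell is given by a de Morgan formula, whose leaves are arbitrary functions of the entries of
the two arrays (`Sum.inl r` is the place of `A r`, `Sum.inr r` is the place of `B r`) with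
certificates of at most `d` entries; for instance the values of procedures which read at most `d`
entries adaptively, and for `d = 1` all predicates of single entries. -/
structure Memory (n d w s : ℕ) where
  /-- the formula of the bit `t` of the cell `c` -/
  formula : Fin s → Fin w → Formula {φ : (Fin n ⊕ Fin n → ℕ) → Bool // Local d φ}

/-- The contents of the joint cells for the arrays `A` and `B`. -/
def Memory.cells {n d w s : ℕ} (D : Memory n d w s) (A B : Fin n → ℕ) : Fin s → Fin w → Bool :=
  fun c t => (D.formula c t).eval fun φ => φ.1 (Sum.elim A B)

/-- The total size (number of leaves) of the formulas of all bits of all joint cells. -/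
def Memory.size {n d w s : ℕ} (D : Memory n d w s) : ℕ := ∑ c, ∑ t, (D.formula c t).size

/-- A data structure for 3SUM-Indexing: a memory, and for every `z` an adaptive query, which reads
joint cells and arbitrary functions (of `w` bits) of the first array alone and of the second array
alone. -/
structure DS (n d w s : ℕ) where
  /-- the joint memory -/
  memory : Memory n d w s
  /-- the queries -/
  query : ℕ → Query (Fin n → ℕ) (Fin n → ℕ) w s

/-- All queries make at most `T` probes. -/
def DS.Within {n d w s : ℕ} (D : DS n d w s) (T : ℕ) : Prop := ∀ z, (D.query z).Within T

/-- The random data structure (`D ω` with probability `p ω`) solves 3SUM-Indexing for arrays of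
numbers at most `n ^ 2`: for all arrays and all `z` it is decided with error probability at most
`1 / 1000` whether `z` is the sum of an entry of `A` and an entry of `B`. -/
def Solves {n d w s : ℕ} {Ω : Type} [Fintype Ω] (p : Ω → ℝ) (D : Ω → DS n d w s) : Prop :=
  ∀ (A B : Fin n → ℕ), (∀ r, A r ≤ n ^ 2) → (∀ r, B r ≤ n ^ 2) → ∀ z : ℕ,
    ∑ ω, p ω * (if ((D ω).query z).eval ((D ω).memory.cells A B) A B ≠
      decide (∃ r r', A r + B r' = z) then (1 : ℝ) else 0) ≤ 1 / 1000

end Pool.Agent.U593.FM
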