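import Pool.Agent.U593.FM.Main
import Pool.Agent.U593.FM.SumDefs
import Pool.Agent.U121.SI.Sum

set_option autoImplicit false
set_option linter.unusedSectionVars false
set_option linter.unusedVariables false

/-!
U593/FM (helper593, MP_e016b3_lc): the total size of the formulas which compute the joint memory of
a structure for 3SUM-Indexing. The arrays are those of `Pool.Agent.U121.SI.Sum` (helper121).
-/

namespace Pool.Agent.U593.FM

open Finset

open Pool.Agent.U121.SI (Query Wrong FF Th ap sel hit idx valA valB qu arrA arrB sum_iff arr_le)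

open scoped Classical

/-- the final computation -/
lemma arith_gen {n m k w T : ℕ} {K : ℝ} (hK : 0 ≤ K) (h1 : n ≤ 4 * m * k)
    (h2 : m ≤ 448 * (w * T)) (h3 : (k : ℝ) ^ 2 ≤ 1600 * K) :
    (n : ℝ) ^ 2 ≤ 10 ^ 10 * (w * T) ^ 2 * K := by
  have h1' : (n : ℝ) ≤ 4 * m * k := by exact_mod_cast h1
  have h2' : (m : ℝ) ≤ 448 * (w * T) := by exact_mod_cast h2
  have hn0 : (0 : ℝ) ≤ n := Nat.cast_nonneg _
  have hm0 : (0 : ℝ) ≤ m := Nat.cast_nonneg _
  calc (n : ℝ) ^ 2 ≤ (4 * m * k) ^ 2 := pow_le_pow_left₀ hn0 h1' 2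
    _ = 16 * m ^ 2 * k ^ 2 := by ring
    _ ≤ 16 * (448 * (w * T)) ^ 2 * (1600 * K) := by
        apply mul_le_mul _ h3 (by positivity) (by positivity)
        exact mul_le_mul_of_nonneg_left (pow_le_pow_left₀ hm0 h2' 2) (by norm_num)
    _ = (16 * 448 ^ 2 * 1600) * ((w * T) ^ 2 * K) := by ring
    _ ≤ 10 ^ 10 * ((w * T) ^ 2 * K) := by
        apply mul_le_mul_of_nonneg_right (by norm_num) (by positivity)
    _ = _ := by ring

/-- **3SUM-Indexing with a joint memory computed by formulas.** -/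
theorem sum_main {n d w s T : ℕ} (hd : 1 ≤ d) (hw : 1 ≤ w) (hT : 1 ≤ T) (hn : 1000 * (w * T) ≤ n)
    {Ω : Type} [Fintype Ω] (p : Ω → ℝ)
    (hp : ∀ ω, 0 ≤ p ω) (hp1 : ∑ ω, p ω = 1) (D : Ω → DS n d w s)
    (hD : ∀ ω, (D ω).Within T) (hsol : Solves p D) :
    (n : ℝ) ^ 2 ≤ 10 ^ 10 * (w * T) ^ 2 * ((d : ℝ) ^ 2 * ∑ ω, p ω * ((D ω).memory.size : ℝ)) := by
  obtain ⟨m, hm⟩ : ∃ m, m = 16 * (4 * (2 * w * T + 5)) := ⟨_, rfl⟩
  have hwT : 1 ≤ w * T := Nat.mul_pos hw hT
  have hm2 : m ≤ 448 * (w * T) := by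
    rw [hm]
    have : 2 * w * T = 2 * (w * T) := by ring
    omega
  have hm0 : 0 < m := by omega
  obtain ⟨k, hk⟩ : ∃ k, k = n / (2 * m) := ⟨_, rfl⟩
  have hkm : 2 * (k * m) ≤ n := by
    have := Nat.div_mul_le_self n (2 * m)
    rw [← hk] at this
    calc 2 * (k * m) = k * (2 * m) := by ring
      _ ≤ n := this
  have hk0 : 0 < k := by
    rw [hk]
    apply Nat.div_pos _ (by omega)
    omega
  have hn4 : n ≤ 4 * m * k := by
    have h1 : n < 2 * m * (k + 1) := by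
      rw [hk]
      exact Nat.lt_mul_div_succ n (by omega)
    have h2 : 2 * m * (k + 1) ≤ 4 * m * k := by
      calc 2 * m * (k + 1) ≤ 2 * m * (k + k) := Nat.mul_le_mul_left _ (by omega)
        _ = 4 * m * k := by ring
    omega
  have hR : (d : ℝ) ^ 2 * ∑ ω, p ω * ((D ω).memory.size : ℝ) =
      ∑ ω, p ω * ((d : ℝ) ^ 2 * ((D ω).memory.size : ℝ)) := by
    rw [mul_sum]
    refine sum_congr rfl fun ω _ => ?_
    ring
  rw [hR]
  refine arith_gen (sum_nonneg fun ω _ => mul_nonneg (hp ω) (by positivity)) hn4 hm2 ?_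
  refine block_gen (k := k) (m := m) (w := w) (s := s) (T := T) hm p hp hp1
    (fun ω c t z => (D ω).memory.cells (arrA (n := n) hk0 hm0 fun i => z (Sum.inl i))
      (arrB hk0 hm0 fun j => z (Sum.inr j)) c t) 
    (fun ω => (d : ℝ) ^ 2 * ((D ω).memory.size : ℝ)) (fun ω => by positivity) ?_
    (fun a => arrA (n := n) hk0 hm0 a) (fun b => arrB (n := n) hk0 hm0 b)
    (fun ω pr => (D ω).query (qu k m pr.1 pr.2)) (fun ω pr => hD ω _) ?_
  · intro ω
    have h1 : ∀ (c : Fin s) (t : Fin w), ∑ pr : Fin k × Fin k,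
        ((univ.filter fun q : (Fin k ⊕ Fin k → (Fin m → Fin m)) ×
          (Fin k ⊕ Fin k → (Fin m → Fin m)) =>
          ap (fun z => (D ω).memory.cells (arrA (n := n) hk0 hm0 fun i => z (Sum.inl i))
            (arrB hk0 hm0 fun j => z (Sum.inr j)) c t) q.1 q.2 pr ≠
          (D ω).memory.cells (arrA (n := n) hk0 hm0 fun i => q.1 (Sum.inl i))
            (arrB hk0 hm0 fun j => q.1 (Sum.inr j)) c t).card : ℝ) ≤
        3 * ((d : ℝ) ^ 2 * ((D ω).memory.formula c t).size *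
          (Fintype.card (Fin k ⊕ Fin k → (Fin m → Fin m)) : ℝ) ^ 2) := by
      intro c t
      refine sum_err_formula ((D ω).memory.formula c t) (fun φ z => φ.1 (Sum.elim
        (arrA (n := n) hk0 hm0 fun i => z (Sum.inl i)) (arrB hk0 hm0 fun j => z (Sum.inr j))))
        hd ?_ (fun z => rfl)
      rintro ⟨φ, hφ⟩ z
      obtain ⟨S, hS, hS'⟩ := hφ (Sum.elim
        (arrA (n := n) hk0 hm0 fun i => z (Sum.inl i)) (arrB hk0 hm0 fun j => z (Sum.inr j)))
      refine ⟨S.image (Sum.map (fun r => (idx hk0 hm0 r).1) fun r => (idx hk0 hm0 r).1),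
        card_image_le.trans hS, fun z' hz' => ?_⟩
      apply hS'
      rintro (r | r) hr
      · have h1 : z' (Sum.inl (idx hk0 hm0 r).1) = z (Sum.inl (idx hk0 hm0 r).1) :=
          hz' _ (mem_image.2 ⟨Sum.inl r, hr, rfl⟩)
        show valA m (idx hk0 hm0 r).1 (idx hk0 hm0 r).2
          (z' (Sum.inl (idx hk0 hm0 r).1) (idx hk0 hm0 r).2) =
          valA m (idx hk0 hm0 r).1 (idx hk0 hm0 r).2
          (z (Sum.inl (idx hk0 hm0 r).1) (idx hk0 hm0 r).2)
        rw [h1]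
      · have h1 : z' (Sum.inr (idx hk0 hm0 r).1) = z (Sum.inr (idx hk0 hm0 r).1) :=
          hz' _ (mem_image.2 ⟨Sum.inr r, hr, rfl⟩)
        show valB k m (idx hk0 hm0 r).1 (idx hk0 hm0 r).2
          (z' (Sum.inr (idx hk0 hm0 r).1) (idx hk0 hm0 r).2) =
          valB k m (idx hk0 hm0 r).1 (idx hk0 hm0 r).2
          (z (Sum.inr (idx hk0 hm0 r).1) (idx hk0 hm0 r).2)
        rw [h1]
    refine (sum_le_sum fun c _ => sum_le_sum fun t _ => h1 c t).trans (le_of_eq ?_)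
    unfold Memory.size
    push_cast
    simp_rw [← mul_sum, ← sum_mul, ← mul_sum]
  · intro z pr
    have h1 := hsol (arrA (n := n) hk0 hm0 fun i => z (Sum.inl i))
      (arrB (n := n) hk0 hm0 fun j => z (Sum.inr j))
      (fun r => (arr_le hk0 hm0 hkm _ r).1) (fun r => (arr_le hk0 hm0 hkm _ r).2)
      (qu k m pr.1 pr.2)
    refine le_trans (le_of_eq ?_) h1
    refine sum_congr rfl fun ω _ => ?_
    congr 1
    have h2 : decide (∃ r r', (arrA (n := n) hk0 hm0 fun i => z (Sum.inl i)) r +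
        (arrB (n := n) hk0 hm0 fun j => z (Sum.inr j)) r' = qu k m pr.1 pr.2) =
        decide (hit (z (Sum.inl pr.1)) (z (Sum.inr pr.2))) := by
      rw [decide_eq_decide]
      exact sum_iff hk0 hm0 (by omega) (fun i => z (Sum.inl i)) (fun j => z (Sum.inr j)) pr.1 pr.2
    rw [h2]
    unfold Wrong
    split_ifs <;> rfl

end Pool.Agent.U593.FM
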